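import Pool.Agent.R260.CoB

set_option autoImplicit false

open Pool.Agent.R260.Co

namespace Pool.Agent.Results.MP_75022b_an.FirstZeroNotMonotone

/-- For `η = 1/10` the first positive zero of the regular Coulomb wave function `F_{L,η}` is not an
increasing function of `L`: at `L = -99/100` it is larger than at `L = -3/4`. -/
theorem result :
    ∃ ρ₁ ρ₂ : ℝ, IsNthZero (-99 / 100) (1 / 10) 1 ρ₁ ∧ IsNthZero (-3 / 4) (1 / 10) 1 ρ₂ ∧
      ρ₂ < ρ₁ := by
  obtain ⟨ρ1, h1, _, h3⟩ := first_zero (-99/100) (1/10) 830 (by norm_num) 12 (by norm_num) bound_one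
    (27/10) (18/5) (by norm_num) (by norm_num) (by norm_num) pos_one neg_one
  obtain ⟨ρ2, _, h2, h4⟩ := first_zero (-3/4) (1/10) 60 (by norm_num) 12 (by norm_num) bound_two
    0 (27/10) le_rfl (by norm_num) (by norm_num) (by
      intro r hr
      have hr0 : r = 0 := le_antisymm hr.2 hr.1
      rw [hr0]
      unfold Phi
      rw [tsum_eq_single 0]
      · simp [cs]
      · intro k hk
        simp [hk]) neg_two
  exact ⟨ρ1, ρ2, h3, h4, by linarith⟩

end Pool.Agent.Results.MP_75022b_an.FirstZeroNotMonotone
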